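import Mathlib

set_option autoImplicit false

open Module

namespace Pool.Agent.TH939.BirchRob

variable {d : ℕ}

/-- If no hyperplane weakly separates `insert p A` from `B`, the hulls keep meeting when `p` moves
a little. -/
theorem robust (A B : Finset (EuclideanSpace ℝ (Fin d))) (p : EuclideanSpace ℝ (Fin d))
    (hB : B.Nonempty)
    (hsep : ∀ w : EuclideanSpace ℝ (Fin d), w ≠ 0 →
      ∃ a ∈ insert p A, ∃ b ∈ B, inner ℝ w b < inner ℝ w a) :
    ∃ ε : ℝ, 0 < ε ∧ ∀ p' : EuclideanSpace ℝ (Fin d), dist p' p < ε →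
      (convexHull ℝ (insert p' (A : Set (EuclideanSpace ℝ (Fin d)))) ∩
        convexHull ℝ (B : Set (EuclideanSpace ℝ (Fin d)))).Nonempty := by
  classical
  let P : Finset (EuclideanSpace ℝ (Fin d) × EuclideanSpace ℝ (Fin d)) := (insert p A) ×ˢ B
  have hP : P.Nonempty := Finset.Nonempty.product ⟨p, Finset.mem_insert_self _ _⟩ hB
  let φ : EuclideanSpace ℝ (Fin d) → ℝ := fun w => P.sup' hP (fun q => inner ℝ w (q.1 - q.2))
  have hφc : Continuous φ := by
    apply Continuous.finset_sup'_apply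
    intro q _
    fun_prop
  have hr : ∃ r : ℝ, 0 < r ∧ ∀ w : EuclideanSpace ℝ (Fin d), ‖w‖ = 1 → r ≤ φ w := by
    by_cases hne : (Metric.sphere (0 : EuclideanSpace ℝ (Fin d)) 1).Nonempty
    · obtain ⟨w0, hw0, hmin⟩ := (isCompact_sphere (0 : EuclideanSpace ℝ (Fin d)) 1).exists_isMinOn
        hne hφc.continuousOn
      refine ⟨φ w0, ?_, fun w hw => hmin (by simpa using hw)⟩
      have hw1 : ‖w0‖ = 1 := by simpa using hw0
      obtain ⟨a, ha, b, hb, hab⟩ := hsep w0 (by
        rintro rfl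
        simp at hw1)
      have h1 : inner ℝ w0 (a - b) ≤ φ w0 :=
        Finset.le_sup' (fun q : EuclideanSpace ℝ (Fin d) × EuclideanSpace ℝ (Fin d) =>
          inner ℝ w0 (q.1 - q.2)) (Finset.mem_product.2 ⟨ha, hb⟩ : (a, b) ∈ P)
      rw [inner_sub_right] at h1
      linarith
    · refine ⟨1, one_pos, fun w hw => ?_⟩
      exact absurd ⟨w, by simpa using hw⟩ hne
  obtain ⟨r, hr0, hr⟩ := hr
  refine ⟨r, hr0, fun p' hp' => ?_⟩
  by_contra hcon
  rw [Set.not_nonempty_iff_eq_empty, ← Set.disjoint_iff_inter_eq_empty] at hcon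
  have hAc : IsCompact (convexHull ℝ (insert p' (A : Set (EuclideanSpace ℝ (Fin d))))) :=
    (A.finite_toSet.insert p').isCompact_convexHull (𝕜 := ℝ)
  have hBc : IsClosed (convexHull ℝ (B : Set (EuclideanSpace ℝ (Fin d)))) :=
    (B.finite_toSet.isCompact_convexHull (𝕜 := ℝ)).isClosed
  obtain ⟨f, u, v, hf1, huv, hf2⟩ := geometric_hahn_banach_compact_closed
    (convex_convexHull ℝ _) hAc (convex_convexHull ℝ _) hBc hcon
  set w := (InnerProductSpace.toDual ℝ (EuclideanSpace ℝ (Fin d))).symm f with hw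
  have hfw : ∀ x, inner ℝ w x = f x := fun x => InnerProductSpace.toDual_symm_apply
  have hsep1 : ∀ a ∈ insert p' (A : Set (EuclideanSpace ℝ (Fin d))), ∀ b ∈ B,
      inner ℝ w a < inner ℝ w b := by
    intro a ha b hb
    have h1 := hf1 a (subset_convexHull ℝ _ ha)
    have h2 := hf2 b (subset_convexHull ℝ _ hb)
    rw [hfw, hfw]
    linarith
  have hw0 : w ≠ 0 := by
    intro h0
    obtain ⟨b, hb⟩ := hB
    have := hsep1 p' (Set.mem_insert _ _) b hb
    rw [h0] at this
    simp at this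
  have hn : 0 < ‖w‖ := norm_pos_iff.2 hw0
  have hφw := hr (‖w‖⁻¹ • w) (by rw [norm_smul, norm_inv, norm_norm, inv_mul_cancel₀ hn.ne'])
  obtain ⟨q, hq, hqe⟩ := Finset.exists_mem_eq_sup' hP
    (fun q : EuclideanSpace ℝ (Fin d) × EuclideanSpace ℝ (Fin d) =>
      inner ℝ (‖w‖⁻¹ • w) (q.1 - q.2))
  have hq2 : r ≤ ‖w‖⁻¹ * inner ℝ w (q.1 - q.2) := by
    have h3 : φ (‖w‖⁻¹ • w) = inner ℝ (‖w‖⁻¹ • w) (q.1 - q.2) := hqe
    rw [h3, real_inner_smul_left] at hφw
    exact hφw
  have hq3 : r * ‖w‖ ≤ inner ℝ w (q.1 - q.2) := by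
    have := mul_le_mul_of_nonneg_left hq2 hn.le
    rw [← mul_assoc, mul_inv_cancel₀ hn.ne', one_mul] at this
    linarith
  obtain ⟨hqa, hqb⟩ := Finset.mem_product.1 hq
  rcases Finset.mem_insert.1 hqa with h | h
  · have h4 := hsep1 p' (Set.mem_insert _ _) q.2 hqb
    have h5 : inner ℝ w (p - p') ≤ ‖w‖ * ‖p - p'‖ := real_inner_le_norm _ _
    have h6 : ‖p - p'‖ < r := by rwa [← dist_eq_norm, dist_comm]
    have h7 : ‖w‖ * ‖p - p'‖ < ‖w‖ * r := mul_lt_mul_of_pos_left h6 hn
    rw [h, inner_sub_right] at hq3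
    rw [inner_sub_right] at h5
    linarith
  · have h4 := hsep1 q.1 (Set.mem_insert_of_mem _ h) q.2 hqb
    rw [inner_sub_right] at hq3
    have : 0 < r * ‖w‖ := mul_pos hr0 hn
    linarith

/-- A point of a hull where a linear functional is maximal lies in the hull of the points where the
functional has this value. -/
theorem face (X : Finset (EuclideanSpace ℝ (Fin d))) (w y : EuclideanSpace ℝ (Fin d))
    (hy : y ∈ convexHull ℝ (X : Set (EuclideanSpace ℝ (Fin d))))
    (hX : ∀ x ∈ X, inner ℝ w x ≤ inner ℝ w y) :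
    y ∈ convexHull ℝ ((X.filter (fun x => inner ℝ w x = inner ℝ w y) :
      Finset (EuclideanSpace ℝ (Fin d))) : Set (EuclideanSpace ℝ (Fin d))) := by
  classical
  rw [Finset.mem_convexHull'] at hy ⊢
  obtain ⟨l, hl0, hl1, hly⟩ := hy
  have h1 : ∑ x ∈ X, l x * (inner ℝ w y - inner ℝ w x) = 0 := by
    have h2 : ∑ x ∈ X, l x * inner ℝ w x = inner ℝ w y := by
      rw [← hly, inner_sum]
      exact Finset.sum_congr rfl fun x _ => (real_inner_smul_right _ _ _).symm
    simp only [mul_sub]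
    rw [Finset.sum_sub_distrib, ← Finset.sum_mul, hl1, h2]
    ring
  have h3 := (Finset.sum_eq_zero_iff_of_nonneg (fun x hx =>
    mul_nonneg (hl0 x hx) (sub_nonneg.2 (hX x hx)))).1 h1
  have h4 : ∀ x ∈ X, ¬ (inner ℝ w x = inner ℝ w y) → l x = 0 := by
    intro x hx hne
    rcases mul_eq_zero.1 (h3 x hx) with h | h
    · exact h
    · exact absurd (by linarith) hne
  refine ⟨l, fun x hx => hl0 x (Finset.mem_filter.1 hx).1, ?_, ?_⟩
  · rw [← hl1]
    refine Finset.sum_subset (Finset.filter_subset _ _) fun x hx hx2 => ?_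
    exact h4 x hx (fun h => hx2 (Finset.mem_filter.2 ⟨hx, h⟩))
  · refine (Finset.sum_subset (Finset.filter_subset _ _) fun x hx hx2 => ?_).trans hly
    rw [h4 x hx (fun h => hx2 (Finset.mem_filter.2 ⟨hx, h⟩)), zero_smul]

/-- General position: every set of at most `d + 1` of the points is affinely independent. -/
def GenPos (S : Finset (EuclideanSpace ℝ (Fin d))) : Prop :=
  ∀ Q ⊆ S, Q.card ≤ d + 1 → AffineIndependent ℝ ((↑) : Q → EuclideanSpace ℝ (Fin d))

/-- In general position no hyperplane weakly separates two disjoint sets whose hulls meet. -/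
theorem nosep (S X B : Finset (EuclideanSpace ℝ (Fin d))) (hS : GenPos S) (hX : X ⊆ S)
    (hB : B ⊆ S) (hd : Disjoint X B)
    (hne : (convexHull ℝ (X : Set (EuclideanSpace ℝ (Fin d))) ∩
      convexHull ℝ (B : Set (EuclideanSpace ℝ (Fin d)))).Nonempty)
    (w : EuclideanSpace ℝ (Fin d)) (hw : w ≠ 0) :
    ∃ a ∈ X, ∃ b ∈ B, inner ℝ w b < inner ℝ w a := by
  classical
  by_contra hcon
  push Not at hcon
  obtain ⟨y, hyX, hyB⟩ := hne
  have hXle : ∀ a ∈ X, inner ℝ w a ≤ inner ℝ w y := by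
    intro a ha
    have h1 : convexHull ℝ (B : Set (EuclideanSpace ℝ (Fin d))) ⊆
        {x | inner ℝ w a ≤ inner ℝ w x} := by
      refine convexHull_min (fun b hb => hcon a ha b hb) ?_
      exact convex_halfSpace_ge (f := fun x => inner ℝ w x)
        ⟨fun x y => inner_add_right _ _ _, fun c x => by
          rw [real_inner_smul_right]; rfl⟩ _
    exact h1 hyB
  have hBge : ∀ b ∈ B, inner ℝ w y ≤ inner ℝ w b := by
    intro b hb
    have h1 : convexHull ℝ (X : Set (EuclideanSpace ℝ (Fin d))) ⊆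
        {x | inner ℝ w x ≤ inner ℝ w b} := by
      refine convexHull_min (fun a ha => hcon a ha b hb) ?_
      exact convex_halfSpace_le (f := fun x => inner ℝ w x)
        ⟨fun x y => inner_add_right _ _ _, fun c x => by
          rw [real_inner_smul_right]; rfl⟩ _
    exact h1 hyX
  have hfX := face X w y hyX hXle
  have hfB := face B (-w) y hyB (fun b hb => by
    rw [inner_neg_left, inner_neg_left]
    have := hBge b hb
    linarith)
  simp only [inner_neg_left, neg_inj] at hfB
  set Q := S.filter (fun x => inner ℝ w x = inner ℝ w y) with hQ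
  have hQc : Q.card ≤ d := by
    by_contra hc
    obtain ⟨Q', hQ'Q, hQ'c⟩ := Finset.exists_subset_card_eq (s := Q) (n := d + 1) (by omega)
    have hai := hS Q' (hQ'Q.trans (Finset.filter_subset _ _)) hQ'c.le
    have htop := (hai.affineSpan_eq_top_iff_card_eq_finrank_add_one).2 (by
      rw [Fintype.card_coe, hQ'c, finrank_euclideanSpace_fin])
    let H : AffineSubspace ℝ (EuclideanSpace ℝ (Fin d)) :=
      AffineSubspace.mk' y (LinearMap.ker (innerₛₗ ℝ w))
    have hle : affineSpan ℝ (Set.range ((↑) : Q' → EuclideanSpace ℝ (Fin d))) ≤ H := by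
      rw [affineSpan_le]
      rintro _ ⟨x, rfl⟩
      have hx : inner ℝ w (x : EuclideanSpace ℝ (Fin d)) = inner ℝ w y :=
        (Finset.mem_filter.1 (hQ'Q x.2)).2
      show (x : EuclideanSpace ℝ (Fin d)) ∈ H
      rw [AffineSubspace.mem_mk', vsub_eq_sub, LinearMap.mem_ker, innerₛₗ_apply_apply,
        inner_sub_right, hx, sub_self]
    rw [htop] at hle
    have h2 : y + w ∈ H := hle (AffineSubspace.mem_top _ _ _)
    rw [AffineSubspace.mem_mk', vsub_eq_sub, LinearMap.mem_ker, innerₛₗ_apply_apply,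
      add_sub_cancel_left, real_inner_self_eq_norm_sq] at h2
    have : ‖w‖ = 0 := by
      rcases pow_eq_zero_iff (two_ne_zero) |>.1 h2 with h
      exact h
    exact hw (norm_eq_zero.1 this)
  have hai := hS Q (Finset.filter_subset _ _) (by omega)
  have hint := hai.convexHull_inter (t₁ := X.filter (fun x => inner ℝ w x = inner ℝ w y))
    (t₂ := B.filter (fun x => inner ℝ w x = inner ℝ w y))
    (fun x hx => Finset.mem_filter.2 ⟨hX (Finset.mem_filter.1 hx).1, (Finset.mem_filter.1 hx).2⟩)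
    (fun x hx => Finset.mem_filter.2 ⟨hB (Finset.mem_filter.1 hx).1, (Finset.mem_filter.1 hx).2⟩)
  have hmem : y ∈ convexHull ℝ (((X.filter (fun x => inner ℝ w x = inner ℝ w y) :
      Finset (EuclideanSpace ℝ (Fin d))) : Set (EuclideanSpace ℝ (Fin d))) ∩
      (B.filter (fun x => inner ℝ w x = inner ℝ w y) : Finset (EuclideanSpace ℝ (Fin d)))) := by
    rw [hint]
    exact ⟨hfX, hfB⟩
  have hempty : ((X.filter (fun x => inner ℝ w x = inner ℝ w y) :
      Finset (EuclideanSpace ℝ (Fin d))) : Set (EuclideanSpace ℝ (Fin d))) ∩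
      (B.filter (fun x => inner ℝ w x = inner ℝ w y) : Finset (EuclideanSpace ℝ (Fin d))) = ∅ := by
    rw [← Finset.coe_inter]
    have : Disjoint (X.filter (fun x => inner ℝ w x = inner ℝ w y))
        (B.filter (fun x => inner ℝ w x = inner ℝ w y)) :=
      Finset.disjoint_filter_filter hd
    rw [Finset.disjoint_iff_inter_eq_empty.1 this, Finset.coe_empty]
  rw [hempty, convexHull_empty] at hmem
  exact hmem

end Pool.Agent.TH939.BirchRob
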