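import Pool.Agent.TH939.BirchSeg
import Pool.Agent.TH939.BirchRob

set_option autoImplicit false

namespace Pool.Agent.TH939.BirchNear

open Pool.Agent.Helper873.Birch Pool.Agent.TH939.BirchSeg Pool.Agent.TH939.BirchRob

/-- Assembly: if every class with one of the points of `P` added meets all earlier classes, then
`R ∪ P` has a good partition. -/
theorem assemble {d : ℕ} (m t : ℕ) (htm : t < m)
    (R P : Finset (EuclideanSpace ℝ (Fin d))) (c : EuclideanSpace ℝ (Fin d) → Fin m)
    (hdis : Disjoint R P) (hPt : P.card = t)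
    (hpair : ∀ i j : Fin m, j < i → ∀ x ∈ P,
      (convexHull ℝ (insert x {x | x ∈ R ∧ c x = i}) ∩
        convexHull ℝ {x | x ∈ R ∧ c x = j}).Nonempty) : TGood (R ∪ P) m t := by
  classical
  let e : P ≃ Fin t := P.equivFinOfCardEq hPt
  let em : Fin t → Fin m := fun k => ⟨m - t + k.val, by omega⟩
  have hem : Function.Injective em := by
    intro a b hab
    have : m - t + a.val = m - t + b.val := congrArg Fin.val hab
    exact Fin.ext (by omega)
  let c' : EuclideanSpace ℝ (Fin d) → Fin m := fun x => if h : x ∈ P then em (e ⟨x, h⟩) else c x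
  have hc'R : ∀ x ∈ R, c' x = c x := by
    intro x hx
    have hxP : x ∉ P := fun h => (Finset.disjoint_left.1 hdis) hx h
    show (if h : x ∈ P then em (e ⟨x, h⟩) else c x) = c x
    rw [dif_neg hxP]
  have hsubR : ∀ j, {x | x ∈ R ∧ c x = j} ⊆ {x | x ∈ R ∪ P ∧ c' x = j} := by
    rintro j x ⟨hx, hxj⟩
    exact ⟨Finset.mem_union_left _ hx, (hc'R x hx).trans hxj⟩
  have hP' : ∀ k : Fin t, c' (e.symm k : EuclideanSpace ℝ (Fin d)) = em k := by
    intro k
    show (if h : (e.symm k : EuclideanSpace ℝ (Fin d)) ∈ P then em (e ⟨_, h⟩) else _) = em k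
    rw [dif_pos (e.symm k).2]
    congr 1
    exact e.apply_symm_apply k
  have hsubI : ∀ k : Fin t, insert (e.symm k : EuclideanSpace ℝ (Fin d))
      {x | x ∈ R ∧ c x = em k} ⊆ {x | x ∈ R ∪ P ∧ c' x = em k} := by
    intro k x hx
    rcases hx with h | h
    · rw [h]
      exact ⟨Finset.mem_union_right _ (e.symm k).2, hP' k⟩
    · exact hsubR _ h
  -- a class with a new point meets every earlier class
  have key : ∀ (k : Fin t) (j : Fin m), j < em k →
      (convexHull ℝ {x | x ∈ R ∪ P ∧ c' x = em k} ∩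
        convexHull ℝ {x | x ∈ R ∪ P ∧ c' x = j}).Nonempty := by
    intro k j hj
    obtain ⟨y, hy1, hy2⟩ := hpair (em k) j hj _ (e.symm k).2
    exact ⟨y, convexHull_mono (hsubI k) hy1, convexHull_mono (hsubR j) hy2⟩
  refine ⟨c', Finset.univ.image em, ?_, ?_⟩
  · rw [Finset.card_image_of_injective _ hem, Finset.card_univ, Fintype.card_fin]
  · intro i hi j
    obtain ⟨k, -, rfl⟩ := Finset.mem_image.1 hi
    rcases lt_trichotomy j (em k) with h | h | h
    · exact key k j h
    · subst h
      rw [Set.inter_self]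
      exact ⟨_, subset_convexHull ℝ _ (hsubI k (Set.mem_insert _ _))⟩
    · have hjv : m - t + k.val < j.val := h
      have hjm := j.isLt
      have hj : j = em ⟨j.val - (m - t), by omega⟩ := by
        apply Fin.ext
        show j.val = m - t + (j.val - (m - t))
        omega
      rw [Set.inter_comm, hj]
      exact key _ _ (by rw [← hj]; exact h)

theorem coe_class {d m : ℕ} (R : Finset (EuclideanSpace ℝ (Fin d)))
    (c : EuclideanSpace ℝ (Fin d) → Fin m) (i : Fin m) : {x | x ∈ R ∧ c x = i} =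
      ((R.filter (fun x => c x = i) : Finset (EuclideanSpace ℝ (Fin d))) :
        Set (EuclideanSpace ℝ (Fin d))) := by
  ext x
  simp

/-- Near a point `q` in general position with respect to `R` the meeting of two classes persists. -/
theorem persist {d m : ℕ} (R : Finset (EuclideanSpace ℝ (Fin d)))
    (c : EuclideanSpace ℝ (Fin d) → Fin m) (i j : Fin m) (hij : j < i)
    (q : EuclideanSpace ℝ (Fin d)) (hq : q ∉ R) (hGP : GenPos (insert q R))
    (hmeet : (convexHull ℝ (insert q {x | x ∈ R ∧ c x = i}) ∩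
        convexHull ℝ {x | x ∈ R ∧ c x = j}).Nonempty) :
    ∃ ε : ℝ, 0 < ε ∧ ∀ p' : EuclideanSpace ℝ (Fin d), dist p' q < ε →
        (convexHull ℝ (insert p' {x | x ∈ R ∧ c x = i}) ∩
          convexHull ℝ {x | x ∈ R ∧ c x = j}).Nonempty := by
  classical
  rw [coe_class, coe_class] at hmeet
  have hBne : (R.filter (fun x => c x = j)).Nonempty := by
    obtain ⟨y, -, hy⟩ := hmeet
    have : (((R.filter (fun x => c x = j) : Finset (EuclideanSpace ℝ (Fin d))) :
        Set (EuclideanSpace ℝ (Fin d)))).Nonempty := convexHull_nonempty_iff.1 ⟨y, hy⟩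
    exact_mod_cast this
  obtain ⟨ε, hε0, hε⟩ := robust (R.filter (fun x => c x = i)) (R.filter (fun x => c x = j)) q
    hBne (fun w hw => nosep (insert q R) (insert q (R.filter (fun x => c x = i)))
      (R.filter (fun x => c x = j)) hGP
      (Finset.insert_subset_insert _ (Finset.filter_subset _ _))
      ((Finset.filter_subset _ _).trans (Finset.subset_insert _ _))
      (by
        rw [Finset.disjoint_left]
        intro x hx hx2
        obtain ⟨hxR, hxj⟩ := Finset.mem_filter.1 hx2
        rcases Finset.mem_insert.1 hx with h | h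
        · exact hq (h ▸ hxR)
        · have := (Finset.mem_filter.1 h).2
          exact (ne_of_lt hij) (hxj.symm.trans this))
      (by rw [Finset.coe_insert]; exact hmeet) w hw)
  refine ⟨ε, hε0, fun p' hp' => ?_⟩
  rw [coe_class, coe_class]
  exact hε p' hp'

/-- Birch's number of points suffices when `t` of the points are close to an extreme point. -/
theorem near {d : ℕ} (m : ℕ) (hm : 1 ≤ m) (R : Finset (EuclideanSpace ℝ (Fin d)))
    (hR : (m - 1) * d + 1 ≤ R.card) (p : EuclideanSpace ℝ (Fin d))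
    (hp : p ∉ convexHull ℝ (R : Set (EuclideanSpace ℝ (Fin d)))) (hGP : GenPos (insert p R)) :
    ∃ ε : ℝ, 0 < ε ∧ ∀ t : ℕ, t < m → ∀ P : Finset (EuclideanSpace ℝ (Fin d)),
      Disjoint R P → P.card = t → (∀ x ∈ P, dist x p < ε) → TGood (R ∪ P) m t := by
  classical
  have hpR : p ∉ R := fun h => hp (subset_convexHull ℝ _ h)
  obtain ⟨c, hc⟩ := ordered m hm R hR p hp
  have hε : ∀ q : Fin m × Fin m, ∃ ε : ℝ, 0 < ε ∧ (q.2 < q.1 →
      ∀ p' : EuclideanSpace ℝ (Fin d), dist p' p < ε →
        (convexHull ℝ (insert p' {x | x ∈ R ∧ c x = q.1}) ∩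
          convexHull ℝ {x | x ∈ R ∧ c x = q.2}).Nonempty) := by
    rintro ⟨i, j⟩
    by_cases hij : j < i
    · obtain ⟨ε, hε0, hε⟩ := persist R c i j hij p hpR hGP (hc i j hij.le)
      exact ⟨ε, hε0, fun _ => hε⟩
    · exact ⟨1, one_pos, fun h => absurd h hij⟩
  choose g hg0 hg using hε
  obtain ⟨q0, -, hq0⟩ := Finset.exists_min_image (Finset.univ : Finset (Fin m × Fin m)) g
    ⟨(⟨0, hm⟩, ⟨0, hm⟩), Finset.mem_univ _⟩
  refine ⟨g q0, hg0 q0, fun t htm P hdis hPt hPε => ?_⟩
  refine assemble m t htm R P c hdis hPt fun i j hij x hx => ?_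
  exact hg (i, j) hij x (lt_of_lt_of_le (hPε x hx) (hq0 _ (Finset.mem_univ _)))

/-- The set of points `q` for which the hulls are disjoint is open. -/
theorem isOpen_disjoint {d : ℕ} (A B : Finset (EuclideanSpace ℝ (Fin d))) :
    IsOpen {q : EuclideanSpace ℝ (Fin d) |
      ¬ (convexHull ℝ (insert q (A : Set (EuclideanSpace ℝ (Fin d)))) ∩
        convexHull ℝ (B : Set (EuclideanSpace ℝ (Fin d)))).Nonempty} := by
  rw [isOpen_iff_mem_nhds]
  intro q hq
  rw [Set.mem_ofPred_eq, Set.not_nonempty_iff_eq_empty, ← Set.disjoint_iff_inter_eq_empty] at hq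
  have hAc : IsCompact (convexHull ℝ (insert q (A : Set (EuclideanSpace ℝ (Fin d))))) :=
    (A.finite_toSet.insert q).isCompact_convexHull (𝕜 := ℝ)
  have hBc : IsClosed (convexHull ℝ (B : Set (EuclideanSpace ℝ (Fin d)))) :=
    (B.finite_toSet.isCompact_convexHull (𝕜 := ℝ)).isClosed
  obtain ⟨f, u, v, hf1, huv, hf2⟩ := geometric_hahn_banach_compact_closed
    (convex_convexHull ℝ _) hAc (convex_convexHull ℝ _) hBc hq
  have hopen : {x | f x < u} ∈ nhds q :=
    (isOpen_lt f.continuous continuous_const).mem_nhds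
      (hf1 q (subset_convexHull ℝ _ (Set.mem_insert _ _)))
  refine Filter.mem_of_superset hopen ?_
  intro x hx hne
  obtain ⟨y, hy1, hy2⟩ := hne
  have h1 : convexHull ℝ (insert x (A : Set (EuclideanSpace ℝ (Fin d)))) ⊆ {z | f z < u} := by
    refine convexHull_min ?_ ?_
    · intro z hz
      rcases hz with h | h
      · rw [h]; exact hx
      · exact hf1 z (subset_convexHull ℝ _ (Set.mem_insert_of_mem _ h))
    · exact convex_halfSpace_lt (f := fun z => f z) f.toLinearMap.isLinear _
  have h2 : f y < u := h1 hy1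
  have h3 := hf2 y hy2
  linarith

/-- Birch's number of points suffices when `t` of the points lie in one cell of the arrangement of
the hyperplanes spanned by the other points. -/
theorem cell {d : ℕ} (m t : ℕ) (htm : t < m) (R P : Finset (EuclideanSpace ℝ (Fin d)))
    (hR : (m - 1) * d + 1 ≤ R.card) (hPt : P.card = t) (p : EuclideanSpace ℝ (Fin d))
    (hp : p ∉ convexHull ℝ (R : Set (EuclideanSpace ℝ (Fin d))))
    (hcell : ∀ x ∈ P, ∀ q ∈ segment ℝ p x, q ∉ R ∧ GenPos (insert q R)) :
    TGood (R ∪ P) m t := by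
  classical
  have hdis : Disjoint R P := by
    rw [Finset.disjoint_left]
    intro x hx hxP
    exact (hcell x hxP x (right_mem_segment ℝ p x)).1 hx
  obtain ⟨c, hc⟩ := ordered m (by omega) R hR p hp
  refine assemble m t htm R P c hdis hPt fun i j hij x hx => ?_
  let γ : ℝ → EuclideanSpace ℝ (Fin d) := fun s => p + s • (x - p)
  have hγ : Continuous γ := by fun_prop
  let Z : Set ℝ := {s | (convexHull ℝ (insert (γ s) {x | x ∈ R ∧ c x = i}) ∩
        convexHull ℝ {x | x ∈ R ∧ c x = j}).Nonempty}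
  have hZc : IsClosed Z := by
    have h1 := (isOpen_disjoint (R.filter (fun x => c x = i)) (R.filter (fun x => c x = j))).preimage hγ
    have h2 : Zᶜ = γ ⁻¹' {q : EuclideanSpace ℝ (Fin d) |
      ¬ (convexHull ℝ (insert q ((R.filter (fun x => c x = i) :
        Finset (EuclideanSpace ℝ (Fin d))) : Set (EuclideanSpace ℝ (Fin d)))) ∩
        convexHull ℝ ((R.filter (fun x => c x = j) :
        Finset (EuclideanSpace ℝ (Fin d))) : Set (EuclideanSpace ℝ (Fin d)))).Nonempty} := by
      ext s
      rw [← coe_class, ← coe_class]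
      rfl
    rw [← isOpen_compl_iff, h2]
    exact h1
  have h0 : (0 : ℝ) ∈ Z := by
    show (convexHull ℝ (insert (p + (0 : ℝ) • (x - p)) {x | x ∈ R ∧ c x = i}) ∩
        convexHull ℝ {x | x ∈ R ∧ c x = j}).Nonempty
    rw [zero_smul, add_zero]
    exact hc i j hij.le
  have hsub := IsClosed.Icc_subset_of_forall_mem_nhdsWithin (a := (0 : ℝ)) (b := 1) (s := Z)
    (hZc.inter isClosed_Icc) h0 (by
      rintro s ⟨hsZ, hs⟩
      have hseg : γ s ∈ segment ℝ p x := by
        rw [segment_eq_image']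
        exact ⟨s, ⟨hs.1, hs.2.le⟩, rfl⟩
      obtain ⟨hq, hGP⟩ := hcell x hx (γ s) hseg
      obtain ⟨ε, hε0, hε⟩ := persist R c i j hij (γ s) hq hGP hsZ
      have : γ ⁻¹' (Metric.ball (γ s) ε) ∈ nhds s :=
        hγ.continuousAt.preimage_mem_nhds (Metric.ball_mem_nhds _ hε0)
      exact mem_nhdsWithin_of_mem_nhds (Filter.mem_of_superset this fun r hr => hε _ hr))
  have h1 : (1 : ℝ) ∈ Z := hsub ⟨zero_le_one, le_rfl⟩
  have h2 : (convexHull ℝ (insert (p + (1 : ℝ) • (x - p)) {x | x ∈ R ∧ c x = i}) ∩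
        convexHull ℝ {x | x ∈ R ∧ c x = j}).Nonempty := h1
  rw [one_smul, add_sub_cancel] at h2
  exact h2

end Pool.Agent.TH939.BirchNear
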