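import Mathlib
import Pool.Agent.Helper873.Birch.Main

set_option autoImplicit false

open Module

namespace Pool.Agent.TH939.BirchSeg

open Pool.Agent.Helper873.Birch

/-- Sarkaria's argument with `D` additional vectors of mass `-1` at the point `O`. -/
theorem core {d : ℕ} (M D : ℕ) (hDM : D < M) (R : Finset (EuclideanSpace ℝ (Fin d)))
    (O : EuclideanSpace ℝ (Fin d)) (hO : O ∉ convexHull ℝ (R : Set (EuclideanSpace ℝ (Fin d))))
    (hcard : (M - 1) * (d + 1) + 1 ≤ R.card + D) :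
    ∃ (c : EuclideanSpace ℝ (Fin d) → Fin M) (T : Finset (Fin M)) (u : EuclideanSpace ℝ (Fin d)),
      M - D ≤ T.card ∧
      (∀ i ∈ T, u ∈ convexHull ℝ {x | x ∈ R ∧ c x = i}) ∧
      ∀ j, ∃ y ∈ segment ℝ O u, y ∈ convexHull ℝ {x | x ∈ R ∧ c x = j} := by
  classical
  have hM : 1 ≤ M := by omega
  obtain ⟨f, r, hfO, hfR⟩ := geometric_hahn_banach_point_closed (convex_convexHull ℝ _)
    ((R.finite_toSet.isCompact_convexHull (𝕜 := ℝ)).isClosed) hO
  have hpos : ∀ x ∈ R, 0 < f (x - O) := by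
    intro x hx
    have := hfR x (subset_convexHull ℝ _ hx)
    rw [map_sub]
    linarith
  let v : {x // x ∈ R} ⊕ Fin D → EuclideanSpace ℝ (Fin d) × ℝ := fun i =>
    Sum.elim (fun x : {x // x ∈ R} => ((x : EuclideanSpace ℝ (Fin d)) - O, (1 : ℝ)))
      (fun _ => ((0 : EuclideanSpace ℝ (Fin d)), (-1 : ℝ))) i
  have hfin : finrank ℝ (EuclideanSpace ℝ (Fin d) × ℝ) = d + 1 := by
    rw [Module.finrank_prod, finrank_euclideanSpace_fin, finrank_self]
  obtain ⟨c, l, z, hl0, hl1, hz⟩ := sark M hM v (by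
    rw [hfin, Fintype.card_sum, Fintype.card_coe, Fintype.card_fin]
    exact hcard)
  -- masses
  let cl : Fin M → Finset {x // x ∈ R} := fun j => Finset.univ.filter (fun x => c (Sum.inl x) = j)
  let dl : Fin M → Finset (Fin D) := fun j => Finset.univ.filter (fun k => c (Sum.inr k) = j)
  have hsplit : ∀ (j : Fin M) (g : {x // x ∈ R} ⊕ Fin D → EuclideanSpace ℝ (Fin d) × ℝ),
      ∑ i with c i = j, g i = ∑ x ∈ cl j, g (Sum.inl x) + ∑ k ∈ dl j, g (Sum.inr k) := by
    intro j g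
    rw [Finset.sum_filter, Fintype.sum_sum_type, Finset.sum_filter, Finset.sum_filter]
  have hz1 : ∀ j, ∑ x ∈ cl j, l (Sum.inl x) • ((x : EuclideanSpace ℝ (Fin d)) - O) = z.1 := by
    intro j
    have h := congrArg Prod.fst (hz j)
    rw [hsplit, Prod.fst_add, Prod.fst_sum, Prod.fst_sum] at h
    simpa [v] using h
  have hz2 : ∀ j, ∑ x ∈ cl j, l (Sum.inl x) - ∑ k ∈ dl j, l (Sum.inr k) = z.2 := by
    intro j
    have h := congrArg Prod.snd (hz j)
    rw [hsplit, Prod.snd_add, Prod.snd_sum, Prod.snd_sum] at h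
    simpa [v, sub_eq_add_neg] using h
  have hd0 : ∀ j, 0 ≤ ∑ k ∈ dl j, l (Sum.inr k) := fun j => Finset.sum_nonneg fun k _ => hl0 _
  have hc0 : ∀ j, 0 ≤ ∑ x ∈ cl j, l (Sum.inl x) := fun j => Finset.sum_nonneg fun k _ => hl0 _
  -- colours without additional vectors
  let B : Finset (Fin M) := Finset.univ.image (fun k : Fin D => c (Sum.inr k))
  let T : Finset (Fin M) := Bᶜ
  have hT : M - D ≤ T.card := by
    have h1 : B.card ≤ D := le_trans Finset.card_image_le (by simp)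
    have h2 : T.card = M - B.card := by
      show (Bᶜ).card = _
      rw [Finset.card_compl, Fintype.card_fin]
    omega
  have hdT : ∀ j ∈ T, dl j = ∅ := by
    intro j hj
    rw [Finset.eq_empty_iff_forall_notMem]
    intro k hk
    have h1 : c (Sum.inr k) = j := (Finset.mem_filter.1 hk).2
    exact (Finset.mem_compl.1 hj) (Finset.mem_image.2 ⟨k, Finset.mem_univ _, h1⟩)
  obtain ⟨j0, hj0⟩ : T.Nonempty := by
    rw [← Finset.card_pos]; omega
  have hm0 : ∑ x ∈ cl j0, l (Sum.inl x) = z.2 := by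
    have := hz2 j0
    rw [hdT j0 hj0] at this
    simpa using this
  have hzpos : 0 < z.2 := by
    by_contra hcon
    have hz20 : z.2 = 0 := le_antisymm (not_lt.1 hcon) (hm0 ▸ hc0 j0)
    have h1 : ∀ x ∈ cl j0, l (Sum.inl x) = 0 :=
      (Finset.sum_eq_zero_iff_of_nonneg (fun x _ => hl0 _)).1 (by rw [hm0, hz20])
    have hz10 : z.1 = 0 := by
      rw [← hz1 j0]
      exact Finset.sum_eq_zero fun x hx => by rw [h1 x hx, zero_smul]
    have h2 : ∀ j, ∀ x ∈ cl j, l (Sum.inl x) = 0 := by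
      intro j
      have h3 : ∑ x ∈ cl j, l (Sum.inl x) * f ((x : EuclideanSpace ℝ (Fin d)) - O) = 0 := by
        have h4 := congrArg f (hz1 j)
        rw [map_sum, hz10, map_zero] at h4
        rw [← h4]
        exact Finset.sum_congr rfl fun x _ => by rw [map_smul, smul_eq_mul]
      have h5 := (Finset.sum_eq_zero_iff_of_nonneg (fun (x : {x // x ∈ R}) _ =>
        mul_nonneg (hl0 (Sum.inl x)) (hpos x x.2).le)).1 h3
      intro x hx
      rcases mul_eq_zero.1 (h5 x hx) with h | h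
      · exact h
      · exact absurd h (hpos x x.2).ne'
    have h6 : ∀ i, l i = 0 := by
      rintro (x | k)
      · exact h2 (c (Sum.inl x)) x (Finset.mem_filter.2 ⟨Finset.mem_univ _, rfl⟩)
      · have h7 := hz2 (c (Sum.inr k))
        rw [Finset.sum_eq_zero (h2 (c (Sum.inr k))), hz20, zero_sub, neg_eq_zero] at h7
        exact (Finset.sum_eq_zero_iff_of_nonneg (fun k _ => hl0 _)).1 h7 k
          (Finset.mem_filter.2 ⟨Finset.mem_univ _, rfl⟩)
    have : ∑ i, l i = 0 := Finset.sum_eq_zero fun i _ => h6 i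
    linarith
  have hmj : ∀ j, z.2 ≤ ∑ x ∈ cl j, l (Sum.inl x) := by
    intro j
    have := hz2 j
    have := hd0 j
    linarith
  let c' : EuclideanSpace ℝ (Fin d) → Fin M := fun x =>
    if h : x ∈ R then c (Sum.inl ⟨x, h⟩) else ⟨0, hM⟩
  have hpt : ∀ j, O + (∑ x ∈ cl j, l (Sum.inl x))⁻¹ • z.1 ∈
      convexHull ℝ {x | x ∈ R ∧ c' x = j} := by
    intro j
    have hmp : 0 < ∑ x ∈ cl j, l (Sum.inl x) := lt_of_lt_of_le hzpos (hmj j)
    have h1 := Finset.centerMass_mem_convexHull (R := ℝ) (s := {x | x ∈ R ∧ c' x = j})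
      (cl j) (w := fun x => l (Sum.inl x))
      (z := fun i : {x // x ∈ R} => (i : EuclideanSpace ℝ (Fin d)))
      (fun i _ => hl0 _) hmp
      (by
        intro i hi
        refine ⟨i.2, ?_⟩
        show (if h : (i : EuclideanSpace ℝ (Fin d)) ∈ R then c (Sum.inl ⟨i, h⟩) else ⟨0, hM⟩) = j
        rw [dif_pos i.2]
        exact (Finset.mem_filter.1 hi).2)
    convert h1 using 1
    unfold Finset.centerMass
    have h2 : ∑ x ∈ cl j, l (Sum.inl x) • ((x : EuclideanSpace ℝ (Fin d)) - O) =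
        ∑ x ∈ cl j, l (Sum.inl x) • (x : EuclideanSpace ℝ (Fin d)) -
          (∑ x ∈ cl j, l (Sum.inl x)) • O := by
      rw [Finset.sum_smul, ← Finset.sum_sub_distrib]
      exact Finset.sum_congr rfl fun i _ => by rw [smul_sub]
    have h3 : ∑ x ∈ cl j, l (Sum.inl x) • (x : EuclideanSpace ℝ (Fin d)) =
        z.1 + (∑ x ∈ cl j, l (Sum.inl x)) • O := by
      rw [← hz1 j, h2, sub_add_cancel]
    rw [h3, smul_add, smul_smul, inv_mul_cancel₀ hmp.ne', one_smul, add_comm]
  refine ⟨c', T, O + z.2⁻¹ • z.1, hT, ?_, ?_⟩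
  · intro i hi
    have h1 : ∑ x ∈ cl i, l (Sum.inl x) = z.2 := by
      have := hz2 i
      rw [hdT i hi] at this
      simpa using this
    have := hpt i
    rwa [h1] at this
  · intro j
    refine ⟨_, ?_, hpt j⟩
    have hmp : 0 < ∑ x ∈ cl j, l (Sum.inl x) := lt_of_lt_of_le hzpos (hmj j)
    rw [segment_eq_image']
    refine ⟨z.2 * (∑ x ∈ cl j, l (Sum.inl x))⁻¹, ⟨by positivity, ?_⟩, ?_⟩
    · rw [← div_eq_mul_inv, div_le_one hmp]
      exact hmj j
    · show O + (z.2 * (∑ x ∈ cl j, l (Sum.inl x))⁻¹) • (O + z.2⁻¹ • z.1 - O) = _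
      rw [add_sub_cancel_left, smul_smul]
      congr 2
      field_simp

/-- All classes can be ordered along the segment: the hull of `O` and a class meets the hulls of all
earlier classes. -/
theorem ordered {d : ℕ} (m : ℕ) (hm : 1 ≤ m) (R : Finset (EuclideanSpace ℝ (Fin d)))
    (hR : (m - 1) * d + 1 ≤ R.card) (O : EuclideanSpace ℝ (Fin d))
    (hO : O ∉ convexHull ℝ (R : Set (EuclideanSpace ℝ (Fin d)))) :
    ∃ c : EuclideanSpace ℝ (Fin d) → Fin m, ∀ i j : Fin m, j ≤ i →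
      (convexHull ℝ (insert O {x | x ∈ R ∧ c x = i}) ∩
        convexHull ℝ {x | x ∈ R ∧ c x = j}).Nonempty := by
  classical
  obtain ⟨c, T, u, hT, hu, hseg⟩ := core m (m - 1) (by omega) R O hO
    (by
      have : (m - 1) * (d + 1) = (m - 1) * d + (m - 1) := by ring
      omega)
  have h1 : ∀ j, ∃ s : ℝ, 0 ≤ s ∧ O + s • (u - O) ∈ convexHull ℝ {x | x ∈ R ∧ c x = j} := by
    intro j
    obtain ⟨y, hy, hy2⟩ := hseg j
    rw [segment_eq_image'] at hy
    obtain ⟨s, hs, rfl⟩ := hy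
    exact ⟨s, hs.1, hy2⟩
  choose s hs0 hs using h1
  refine ⟨fun x => (Tuple.sort s).symm (c x), fun i j hij => ?_⟩
  have hset : ∀ j, {x | x ∈ R ∧ (Tuple.sort s).symm (c x) = j} =
      {x | x ∈ R ∧ c x = Tuple.sort s j} := by
    intro j
    ext x
    simp only [Set.mem_ofPred_eq, Equiv.symm_apply_eq]
  rw [hset, hset]
  have hle : s (Tuple.sort s j) ≤ s (Tuple.sort s i) := Tuple.monotone_sort s hij
  refine ⟨O + s (Tuple.sort s j) • (u - O), ?_, hs _⟩
  have hA : O ∈ convexHull ℝ (insert O {x | x ∈ R ∧ c x = Tuple.sort s i}) :=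
    subset_convexHull ℝ _ (Set.mem_insert _ _)
  have hB : O + s (Tuple.sort s i) • (u - O) ∈
      convexHull ℝ (insert O {x | x ∈ R ∧ c x = Tuple.sort s i}) :=
    convexHull_mono (Set.subset_insert _ _) (hs _)
  refine (convex_convexHull ℝ _).segment_subset hA hB ?_
  rw [segment_eq_image']
  rcases (hs0 (Tuple.sort s i)).eq_or_lt with h0 | h0
  · have h2 : s (Tuple.sort s j) = 0 := le_antisymm (h0 ▸ hle) (hs0 _)
    exact ⟨0, ⟨le_rfl, zero_le_one⟩, by simp [h2]⟩
  · refine ⟨s (Tuple.sort s j) / s (Tuple.sort s i),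
      ⟨div_nonneg (hs0 _) (hs0 _), (div_le_one h0).2 hle⟩, ?_⟩
    show O + (s (Tuple.sort s j) / s (Tuple.sort s i)) •
      (O + s (Tuple.sort s i) • (u - O) - O) = _
    rw [add_sub_cancel_left, smul_smul, div_mul_cancel₀ _ h0.ne']

end Pool.Agent.TH939.BirchSeg
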